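import Pool.Agent.W_MP_54b1e5_al.StepG
import Pool.Agent.W_MP_6cb7ce_lc_h1.MA
import Pool.Agent.W_3b51b4_h32.Final

/-!
# Direct summands of `ℤ^{ω₁}/ℤ^{<ω₁}`: the negated form of Q1 is consistent with `ZFC`

Under `MA_{ℵ₁}(σ-centered)` (equivalently `𝔭 > ℵ₁`; in particular under `MA_{ℵ₁}`) every
endomorphism of `G = ℤ^{ω₁}/ℤ^{<ω₁}` is induced by a row finite matrix, and every nonzero direct
summand of `G` is isomorphic to `G`; and there is a countable well-founded model of `ZFC` and
`MA_{ℵ₁}`.  So `ZFC` does not prove that `G` has a nonzero direct summand which is not isomorphic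
to `G`.  In `ZFC`, every nonzero direct summand whose projection is induced by a row finite matrix
is isomorphic to `G`.
-/

namespace Pool.Agent.Results.MP_54b1e5_al.ConsistentNegation

open Pool.Agent.W_MP_54b1e5_al Pool.Agent.W_MP_6cb7ce_lc_h1

/-- the group of all integer valued functions on `I` modulo the functions of countable support -/
abbrev Gr (I : Type) : Type :=
  (I → ℤ) ⧸ AddSubgroup.closure {f : I → ℤ | (Function.support f).Countable}

/-- the class of a function in `Gr I` -/
abbrev cls {I : Type} (f : I → ℤ) : Gr I := QuotientAddGroup.mk f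

/-- the action of a row finite integer matrix on integer valued functions -/
noncomputable abbrev act {I : Type} (M : I → (I →₀ ℤ)) (f : I → ℤ) : I → ℤ :=
  fun β => (M β).sum fun x n => n * f x

/-- `MA_{ℵ₁}` implies `MA_{ℵ₁}(σ-centered)`. -/
theorem sigmaCentered_of_MA (h : MartinsAxiomAlephOne) : MASigmaCentered := by
  classical
  intro P _ _ hC ι D hι hD
  obtain ⟨C, hC1, hC2⟩ := hC
  have hccc : IsCCC P := by
    intro A hA
    choose n hn using hC1
    refine Set.MapsTo.countable_of_injOn (f := n) (t := Set.univ) (fun _ _ => Set.mem_univ _) ?_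
      Set.countable_univ
    intro p hp q hq hpq
    by_contra hne
    refine hA p hp q hq hne ?_
    obtain ⟨r, hr⟩ := hC2 (n p) {p, q} (by
      intro x hx
      rcases Finset.mem_insert.1 hx with rfl | hx
      · exact hn _
      · rw [Finset.mem_singleton.1 hx, hpq]
        exact hn _)
    exact ⟨r, hr p (Finset.mem_insert_self _ _), hr q (Finset.mem_insert_of_mem
      (Finset.mem_singleton_self _))⟩
  obtain ⟨G, hG, hGD⟩ := h P hccc ι D hι fun i p => hD i p
  exact ⟨G, hG.nonempty, hG.upward, hG.directed, fun i => by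
    obtain ⟨p, hp1, hp2⟩ := hGD i
    exact ⟨p, hp1, hp2⟩⟩

/-- For `|I| = ℵ₁`: (1) a nonzero direct summand `A` of `Gr I` with complement `B` is isomorphic to
`Gr I` whenever the projection onto `A` along `B` is induced by a row finite matrix;
(2) under `MA_{ℵ₁}(σ-centered)`, every endomorphism of `Gr I` is induced by a row finite matrix, and
every nonzero direct summand of `Gr I` is isomorphic to `Gr I`; (3) `MA_{ℵ₁}` implies
`MA_{ℵ₁}(σ-centered)`; (4) there is a countable well-founded model of `ZFC` and `MA_{ℵ₁}`. -/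
theorem result :
    (∀ I : Type, Cardinal.mk I = Cardinal.aleph 1 → ∀ A B : AddSubgroup (Gr I),
      IsCompl A B → A ≠ ⊥ →
      (∃ M : I → (I →₀ ℤ), ∀ f : I → ℤ, cls (act M f) ∈ A ∧ cls f - cls (act M f) ∈ B) →
      Nonempty (A ≃+ Gr I)) ∧
    (MASigmaCentered → ∀ I : Type, Cardinal.mk I = Cardinal.aleph 1 →
      (∀ e : Gr I →+ Gr I, ∃ M : I → (I →₀ ℤ), ∀ f : I → ℤ, e (cls f) = cls (act M f)) ∧
      ∀ A B : AddSubgroup (Gr I), IsCompl A B → A ≠ ⊥ → Nonempty (A ≃+ Gr I)) ∧
    (MartinsAxiomAlephOne → MASigmaCentered) ∧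
    ∃ (M : Type 1) (E : M → M → Prop), Countable M ∧ WellFounded E ∧ HESR.IsZFC E ∧
      MAO.MA1 E := by
  refine ⟨fun I hI => ?_, fun hMA I hI => ⟨?_, ?_⟩, sigmaCentered_of_MA, ?_⟩
  · unfold Gr cls act
    rw [closure_eq_ctblSupp I]
    rintro A B hAB hA ⟨M, hM⟩
    exact summand_of_matrix I hI A B hAB hA M hM
  · unfold Gr cls act
    rw [closure_eq_ctblSupp I]
    exact matrix_rep' hMA hI.le
  · unfold Gr
    rw [closure_eq_ctblSupp I]
    exact summand_of_MA hMA I hI
  · obtain ⟨M, E, h1, h2, h3, h4, _⟩ := MOF.exists_model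
    exact ⟨M, E, h1, h2, h3, h4⟩

end Pool.Agent.Results.MP_54b1e5_al.ConsistentNegation
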