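import Pool.Agent.W_54b1e5_r17.Pow17E

/-!
# Homomorphisms from `ℤ^{ω₁}` to cotorsion-free groups

A theorem of `ZFC`. Let `I` be a set of size `ℵ₁`. A homomorphism `φ` from `ℤ ^ I` to a cotorsion-free group `H` (every homomorphism
`ℤ ^ ℕ → H` which vanishes on the unit vectors is zero) vanishes on all functions which are `0` on some countable set, or it
is injective on a copy of `ℤ ^ I`.
-/

namespace Pool.Agent.Results.MP_54b1e5_al.HomsFromPower

universe u

/-- every homomorphism from `ℤ ^ ℕ` to `H` which vanishes on the unit vectors is zero -/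
def CotorsionFree (H : Type u) [AddCommGroup H] : Prop :=
  ∀ ψ : (ℕ → ℤ) →+ H, (∀ n, ψ (Pi.single n 1) = 0) → ∀ x, ψ x = 0

/-- `φ` vanishes on all functions which are `0` on some countable set -/
def CountablyDetermined {I : Type} {H : Type u} [AddCommGroup H] (φ : (I → ℤ) →+ H) : Prop :=
  ∃ C : Set I, C.Countable ∧ ∀ f : I → ℤ, (∀ i ∈ C, f i = 0) → φ f = 0

/-- `φ` is injective on a copy of `ℤ ^ I` -/
def InjectiveOnPower {I : Type} {H : Type u} [AddCommGroup H] (φ : (I → ℤ) →+ H) : Prop :=
  ∃ E : (I → ℤ) →+ (I → ℤ), Function.Injective (φ.comp E)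

/-- Let `I` be a set of size `ℵ₁`. If every homomorphism `ℤ ^ ℕ → H` which vanishes on the unit vectors is zero, then for
every homomorphism `φ : ℤ ^ I → H` there is a countable set `C` such that `φ` vanishes on the functions which are `0` on
`C`, or there is an endomorphism `E` of `ℤ ^ I` such that `φ ∘ E` is injective. -/
theorem result (I : Type) (hI : Cardinal.mk I = Cardinal.aleph 1) (H : Type u) [AddCommGroup H]
    (hH : CotorsionFree H) (φ : (I → ℤ) →+ H) : CountablyDetermined φ ∨ InjectiveOnPower φ :=
  Pool.Agent.W_54b1e5_r17.dichotomy I hI H (fun ψ h => AddMonoidHom.ext (hH ψ h)) φ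

end Pool.Agent.Results.MP_54b1e5_al.HomsFromPower
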