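import Pool.Agent.W_54b1e5_r17.Pow17E

/-!
# Direct summands of `ℤ^{ω₁}/ℤ^{<ω₁}` contain `ℤ^{ω₁}`

A theorem of `ZFC`. Let `I` be a set of size `ℵ₁`. Every nonzero direct summand of `G = ℤ ^ I / (countable support)` contains a
copy of `ℤ ^ I`, and has as many elements as `G`. It is obtained from a dichotomy for the homomorphisms from `ℤ ^ I` to
cotorsion-free groups, handed in as `HomsFromPower`.
-/

namespace Pool.Agent.Results.MP_54b1e5_al.SummandsContainPower

/-- the group of all integer valued functions on `I` modulo the functions of countable support -/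
abbrev Gr (I : Type) : Type :=
  (I → ℤ) ⧸ AddSubgroup.closure {f : I → ℤ | (Function.support f).Countable}

/-- `A` contains a copy of `ℤ ^ I` -/
def ContainsPower (I A : Type) [AddCommGroup A] : Prop :=
  ∃ ψ : (I → ℤ) →+ A, Function.Injective ψ

/-- Let `I` be a set of size `ℵ₁`. Every nonzero direct summand of `Gr I` contains
a copy of `ℤ ^ I` and has the cardinality of `Gr I`. -/
theorem result (I : Type) (hI : Cardinal.mk I = Cardinal.aleph 1) (A B : AddSubgroup (Gr I))
    (hAB : IsCompl A B) (hA : A ≠ ⊥) :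
    ContainsPower I A ∧ Cardinal.mk A = Cardinal.mk (Gr I) := by
  refine ⟨Pool.Agent.W_54b1e5_r17.copy_of_summand I hI A B hAB hA, ?_⟩
  have h1 := Pool.Agent.W_54b1e5_r17.mk_summand I hI A B hAB hA
  have htop : (⊤ : AddSubgroup (Gr I)) ≠ ⊥ := by
    intro h
    apply hA
    rw [eq_bot_iff, ← h]
    exact le_top
  have h2 := Pool.Agent.W_54b1e5_r17.mk_summand I hI (⊤ : AddSubgroup (Gr I)) (⊥ : AddSubgroup (Gr I))
    isCompl_top_bot htop
  refine Eq.trans h1 (Eq.trans h2.symm ?_)
  exact Cardinal.mk_univ (α := Gr I)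

end Pool.Agent.Results.MP_54b1e5_al.SummandsContainPower
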